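import Pool.Agent.Q209.WD.Top

set_option autoImplicit false

namespace Pool.Agent.Q209.WD

open Filter Topology Set

section space

variable {P I : Type} {A : I → Set P}

/-- every infinite set of indices contains a sequence whose sets can be reduced to
a discrete family -/
def Star (A : I → Set P) : Prop :=
  ∀ D : Set I, D.Infinite → ∃ (f : ℕ → I) (B : ℕ → Set P), Function.Injective f ∧
    (∀ m, f m ∈ D) ∧ (∀ m, B m ⊆ A (f m)) ∧ (∀ m, {w | w ∈ A (f m) ∧ w ∉ B m}.Finite) ∧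
    (∀ m m' w, w ∈ B m → w ∈ B m' → m = m') ∧
    ∀ i, (∀ m, i ≠ f m) → {w | w ∈ A i ∧ ∃ m, w ∈ B m}.Finite

theorem tendsto_of_fin {x : Sp A} {f : ℕ → Sp A}
    (h : ∀ U : Set (Sp A), IsOpen U → x ∈ U → {n | f n ∉ U}.Finite) :
    Tendsto f atTop (𝓝 x) := by
  rw [tendsto_nhds]
  intro U hU hx
  rw [← Nat.cofinite_eq_atTop]
  exact h U hU hx

theorem frechet (hS : Star A) : FrechetUrysohnSpace (Sp A) := by
  classical
  refine ⟨fun S x hx => ?_⟩
  by_cases hxS : x ∈ S
  · exact subset_seqClosure hxS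
  rw [mem_closure_iff] at hx
  rcases sp_cases x with ⟨w, rfl⟩ | ⟨i, rfl⟩ | rfl
  · obtain ⟨y, hy, hyS⟩ := hx {pt w} (isOpen_pt w) rfl
    rw [Set.mem_singleton_iff] at hy
    exact absurd (hy ▸ hyS) hxS
  · -- a point `ix i`
    have hinf : {w | w ∈ A i ∧ (pt w : Sp A) ∈ S}.Infinite := by
      intro hfin
      obtain ⟨y, hy, hyS⟩ := hx (Nb i (A i \ {w | w ∈ A i ∧ (pt w : Sp A) ∈ S})) (isOpen_Nb (by
        refine hfin.subset ?_
        rintro w ⟨h1, h2⟩
        by_contra h3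
        exact h2 ⟨h1, h3⟩)) (Or.inl rfl)
      rcases hy with rfl | ⟨w, hw, rfl⟩
      · exact hxS hyS
      · exact hw.2 ⟨hw.1, hyS⟩
    set e := hinf.natEmbedding with he
    refine ⟨fun n => pt (e n).1, fun n => (e n).2.2, tendsto_of_fin fun U hU hiU => ?_⟩
    refine ((hU.1 i hiU).preimage (f := fun n => (e n).1) ?_).subset ?_
    · intro a _ b _ hab
      exact e.injective (Subtype.ext hab)
    · intro n hn
      exact ⟨(e n).2.1, hn⟩
  · -- the point at infinity
    by_cases h1 : {i | (ix i : Sp A) ∈ S}.Infinite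
    · set e := h1.natEmbedding with he
      refine ⟨fun n => ix (e n).1, fun n => (e n).2, tendsto_of_fin fun U hU hiU => ?_⟩
      refine ((hU.2 hiU).1.preimage (f := fun n => (e n).1) ?_).subset ?_
      · intro a _ b _ hab
        exact e.injective (Subtype.ext hab)
      · intro n hn
        exact hn
    rw [Set.not_infinite] at h1
    -- it suffices to find an infinite set almost disjoint from all the sets
    suffices hT : ∃ T : Set P, T.Infinite ∧ (∀ w ∈ T, (pt w : Sp A) ∈ S) ∧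
        ∀ i, (A i ∩ T).Finite by
      obtain ⟨T, hTinf, hTS, hTA⟩ := hT
      set e := hTinf.natEmbedding with he
      refine ⟨fun n => pt (e n).1, fun n => hTS _ (e n).2, tendsto_of_fin fun U hU hiU => ?_⟩
      obtain ⟨F, hF, h3⟩ := (hU.2 hiU).2
      have h4 : ({w | (pt w : Sp A) ∉ U} ∩ T).Finite := by
        refine (h3.union (hF.biUnion fun i _ => hTA i)).subset ?_
        rintro w ⟨h5, h6⟩
        by_cases h7 : ∀ i ∈ F, w ∉ A i
        · exact Or.inl ⟨h5, h7⟩
        · push Not at h7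
          obtain ⟨i, hi, hw⟩ := h7
          exact Or.inr (Set.mem_iUnion₂.2 ⟨i, hi, hw, h6⟩)
      refine (h4.preimage (f := fun n => (e n).1) ?_).subset ?_
      · intro a _ b _ hab
        exact e.injective (Subtype.ext hab)
      · intro n hn
        exact ⟨hn, (e n).2⟩
    by_cases h2 : {i | {w | w ∈ A i ∧ (pt w : Sp A) ∈ S}.Infinite}.Infinite
    · obtain ⟨f, B, hf, hfD, hB1, hB2, hB3, hB4⟩ := hS _ h2
      have h3 : ∀ m, ∃ w ∈ B m, (pt w : Sp A) ∈ S := by
        intro m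
        by_contra hcon
        push Not at hcon
        apply hfD m
        refine (hB2 m).subset ?_
        rintro w ⟨h4, h5⟩
        exact ⟨h4, fun h6 => hcon w h6 h5⟩
      choose t ht1 ht2 using h3
      have htinj : Function.Injective t := by
        intro a b hab
        exact hB3 a b (t a) (ht1 a) (hab ▸ ht1 b)
      refine ⟨Set.range t, Set.infinite_range_of_injective htinj, ?_, ?_⟩
      · rintro _ ⟨m, rfl⟩
        exact ht2 m
      · intro i
        by_cases hi : ∀ m, i ≠ f m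
        · refine (hB4 i hi).subset ?_
          rintro _ ⟨h4, m, rfl⟩
          exact ⟨h4, m, ht1 m⟩
        · push Not at hi
          obtain ⟨m, rfl⟩ := hi
          refine ((hB2 m).union (Set.finite_singleton (t m))).subset ?_
          rintro _ ⟨h4, m', rfl⟩
          by_cases h5 : m' = m
          · subst h5
            exact Or.inr rfl
          · refine Or.inl ⟨h4, fun h6 => h5 ?_⟩
            exact hB3 _ _ _ (ht1 m') h6
    · rw [Set.not_infinite] at h2
      refine ⟨{w | (pt w : Sp A) ∈ S ∧ ∀ i, {w | w ∈ A i ∧ (pt w : Sp A) ∈ S}.Infinite →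
        w ∉ A i}, ?_, fun w hw => hw.1, ?_⟩
      · intro hfin
        have hop : IsOpen ({x : Sp A | x ∉ S} \ (((ix : I → Sp A) ''
            {i | {w | w ∈ A i ∧ (pt w : Sp A) ∈ S}.Infinite}))) := by
          rw [isOpen_def]
          refine ⟨fun i hi => ?_, fun _ => ⟨?_, _, h2, ?_⟩⟩
          · have h5 : ¬ {w | w ∈ A i ∧ (pt w : Sp A) ∈ S}.Infinite := fun h => hi.2 ⟨i, h, rfl⟩
            rw [Set.not_infinite] at h5
            refine h5.subset ?_
            rintro w ⟨h6, h7⟩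
            refine ⟨h6, ?_⟩
            by_contra h8
            refine h7 ⟨h8, ?_⟩
            rintro ⟨i', _, h9⟩
            exact pt_ne_ix h9.symm
          · refine (h1.union h2).subset ?_
            intro i hi
            by_cases h6 : (ix i : Sp A) ∈ S
            · exact Or.inl h6
            · right
              by_contra h7
              refine hi ⟨h6, ?_⟩
              rintro ⟨i', h8, h9⟩
              rw [ix_inj h9] at h8
              exact h7 h8
          · refine hfin.subset ?_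
            rintro w ⟨h6, h7⟩
            refine ⟨?_, h7⟩
            by_contra h8
            refine h6 ⟨h8, ?_⟩
            rintro ⟨i', _, h9⟩
            exact pt_ne_ix h9.symm
        obtain ⟨y, hy, hyS⟩ := hx _ hop ⟨hxS, by
          rintro ⟨i', _, h9⟩
          exact ix_ne_inft h9⟩
        exact hy.1 hyS
      · intro i
        by_cases hi : {w | w ∈ A i ∧ (pt w : Sp A) ∈ S}.Infinite
        · convert Set.finite_empty
          ext w
          simp only [Set.mem_inter_iff, Set.mem_ofPred_eq, Set.mem_empty_iff_false, iff_false,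
            not_and]
          intro h3 _ h4
          exact h4 i hi h3
        · rw [Set.not_infinite] at hi
          refine hi.subset ?_
          rintro w ⟨h3, h4, _⟩
          exact ⟨h3, h4⟩

theorem hered_wd (hS : Star A) : HereditarilyWD (Sp A) := by
  classical
  intro Y D hD hDc hDd
  -- neighbourhoods isolating the points of `D`
  have hiso : ∀ y : Y, ∃ V : Set (Sp A), IsOpen V ∧ y.1 ∈ V ∧ ∀ d : Y, d ∈ D → d.1 ∈ V → d = y := by
    intro y
    by_cases hy : y ∈ D
    · have h1 : IsOpen ({⟨y, hy⟩} : Set D) := isOpen_discrete _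
      obtain ⟨W, hW, hW2⟩ := isOpen_induced_iff.1 h1
      obtain ⟨V, hV, hV2⟩ := isOpen_induced_iff.1 hW
      have h2 : (⟨y, hy⟩ : D) ∈ (Subtype.val ⁻¹' W : Set D) := by rw [hW2]; rfl
      refine ⟨V, hV, ?_, ?_⟩
      · rw [← hV2] at h2
        exact h2
      · intro d hd hdV
        have h3 : (⟨d, hd⟩ : D) ∈ (Subtype.val ⁻¹' W : Set D) := by
          rw [← hV2]
          exact hdV
        rw [hW2, Set.mem_singleton_iff] at h3
        exact congrArg Subtype.val h3
    · obtain ⟨V, hV, hV2⟩ := isOpen_induced_iff.1 hDc.isOpen_compl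
      refine ⟨V, hV, ?_, ?_⟩
      · have h2 : y ∈ Subtype.val ⁻¹' V := by rw [hV2]; exact hy
        exact h2
      · intro d hd hdV
        have h3 : d ∈ Subtype.val ⁻¹' V := hdV
        rw [hV2] at h3
        exact absurd hd h3
  by_cases h1 : {d : Y | d ∈ D ∧ ∃ w, d.1 = pt w}.Infinite
  · refine ⟨_, fun d hd => hd.1, h1, fun d => {d}, ?_, ?_⟩
    · rintro d ⟨hd, w, hw⟩
      refine ⟨isOpen_induced_iff.2 ⟨{pt w}, isOpen_pt w, ?_⟩, rfl⟩
      ext z
      simp only [Set.mem_preimage, Set.mem_singleton_iff]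
      rw [← hw]
      exact ⟨fun h => Subtype.ext h, fun h => congrArg _ h⟩
    · intro y
      obtain ⟨V, hV, hyV, hV2⟩ := hiso y
      refine ⟨Subtype.val ⁻¹' V, isOpen_induced_iff.2 ⟨V, hV, rfl⟩, hyV, ?_⟩
      rintro a ⟨⟨ha, _⟩, z, hz1, hz2⟩ b ⟨⟨hb, _⟩, z', hz1', hz2'⟩
      rw [Set.mem_singleton_iff] at hz1 hz1'
      rw [hz1] at hz2
      rw [hz1'] at hz2'
      rw [hV2 a ha hz2, hV2 b hb hz2']
  rw [Set.not_infinite] at h1
  have h2 : {d : Y | d ∈ D ∧ ∃ i, d.1 = ix i}.Infinite := by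
    intro h3
    apply hD
    have h4 : {d : Y | d ∈ D ∧ d.1 = inft}.Finite := by
      refine Set.Subsingleton.finite ?_
      rintro a ⟨_, ha⟩ b ⟨_, hb⟩
      exact Subtype.ext (ha.trans hb.symm)
    refine ((h1.union h3).union h4).subset ?_
    intro d hd
    rcases sp_cases d.1 with ⟨w, hw⟩ | ⟨i, hi⟩ | h
    · exact Or.inl (Or.inl ⟨hd, w, hw⟩)
    · exact Or.inl (Or.inr ⟨hd, i, hi⟩)
    · exact Or.inr ⟨hd, h⟩
  have h3 : {i : I | ∃ d : Y, d ∈ D ∧ d.1 = ix i}.Infinite := by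
    intro h4
    apply h2
    refine Set.Finite.subset ((h4.image (ix : I → Sp A)).preimage
      (f := (Subtype.val : Y → Sp A)) Subtype.val_injective.injOn) ?_
    rintro d ⟨hd, i, hi⟩
    exact ⟨i, ⟨d, hd, hi⟩, hi.symm⟩
  have hinf : ∀ y : Y, y.1 ≠ inft := by
    intro y hy
    obtain ⟨V, hV, hyV, hV2⟩ := hiso y
    rw [hy] at hyV
    have h4 := (hV.2 hyV).1
    obtain ⟨i, hi⟩ := (h3.sdiff h4).nonempty
    obtain ⟨⟨d, hd, hdi⟩, hi2⟩ := hi
    rw [Set.mem_ofPred_eq, not_not] at hi2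
    have h5 := hV2 d hd (hdi ▸ hi2)
    rw [← h5, hdi] at hy
    exact ix_ne_inft hy
  obtain ⟨f, B, hf, hfD, hB1, hB2, hB3, hB4⟩ := hS _ h3
  choose g hg1 hg2 using hfD
  have hginj : Function.Injective g := by
    intro a b hab
    apply hf
    have := hg2 a
    rw [hab, hg2 b] at this
    exact (ix_inj this).symm
  have hex : ∀ d : Y, ∃ U : Set (Sp A), ∀ m, g m = d → U = Nb (f m) (B m) := by
    intro d
    by_cases h : ∃ m, g m = d
    · obtain ⟨m, rfl⟩ := h
      exact ⟨Nb (f m) (B m), fun m' hm' => by rw [hginj hm']⟩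
    · exact ⟨∅, fun m hm => absurd ⟨m, hm⟩ h⟩
  choose U hU using hex
  refine ⟨Set.range g, ?_, Set.infinite_range_of_injective hginj,
    fun d => Subtype.val ⁻¹' U d, ?_, ?_⟩
  · rintro _ ⟨m, rfl⟩
    exact hg1 m
  · rintro _ ⟨m, rfl⟩
    change IsOpen (Subtype.val ⁻¹' U (g m) : Set Y) ∧ g m ∈ (Subtype.val ⁻¹' U (g m) : Set Y)
    rw [hU (g m) m rfl]
    exact ⟨isOpen_induced_iff.2 ⟨_, isOpen_Nb (hB2 m), rfl⟩, Or.inl (hg2 m)⟩
  · intro y
    have key : ∀ V : Set (Sp A), IsOpen V → y.1 ∈ V →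
        (∀ m m' z z', z ∈ Nb (f m) (B m) → z ∈ V → z' ∈ Nb (f m') (B m') → z' ∈ V → m = m') →
        ∃ V : Set Y, IsOpen V ∧ y ∈ V ∧
          {d | d ∈ Set.range g ∧ ((Subtype.val ⁻¹' U d : Set Y) ∩ V).Nonempty}.Subsingleton := by
      intro V hV hyV h
      refine ⟨Subtype.val ⁻¹' V, isOpen_induced_iff.2 ⟨V, hV, rfl⟩, hyV, ?_⟩
      rintro _ ⟨⟨m, rfl⟩, z, hz1, hz2⟩ _ ⟨⟨m', rfl⟩, z', hz1', hz2'⟩
      rw [hU (g m) m rfl] at hz1
      rw [hU (g m') m' rfl] at hz1'
      rw [h m m' z.1 z'.1 hz1 hz2 hz1' hz2']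
    rcases sp_cases y.1 with ⟨w, hw⟩ | ⟨i, hi⟩ | h
    · refine key {pt w} (isOpen_pt w) hw ?_
      rintro m m' z z' h4 rfl h5 rfl
      rw [pt_mem_Nb] at h4 h5
      exact hB3 m m' w h4 h5
    · by_cases h4 : ∀ m, i ≠ f m
      · refine key (Nb i {w | w ∈ A i ∧ ∀ m, w ∉ B m}) (isOpen_Nb ?_) (Or.inl hi) ?_
        · refine (hB4 i h4).subset ?_
          rintro w ⟨h5, h6⟩
          refine ⟨h5, ?_⟩
          by_contra h7
          push Not at h7
          exact h6 ⟨h5, h7⟩
        · intro m m' z z' h5 h6 h7 h8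
          exfalso
          rcases h6 with rfl | ⟨w, hw, rfl⟩
          · rw [ix_mem_Nb] at h5
            exact h4 m h5
          · rw [pt_mem_Nb] at h5
            exact hw.2 m h5
      · push Not at h4
        obtain ⟨k, rfl⟩ := h4
        refine key (Nb (f k) (B k)) (isOpen_Nb (hB2 k)) (Or.inl hi) ?_
        have h9 : ∀ m z, z ∈ (Nb (f m) (B m) : Set (Sp A)) → z ∈ (Nb (f k) (B k) : Set (Sp A)) →
            m = k := by
          intro m z h5 h6
          rcases h6 with rfl | ⟨w, hw, rfl⟩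
          · rw [ix_mem_Nb] at h5
            exact (hf h5).symm
          · rw [pt_mem_Nb] at h5
            exact hB3 _ _ _ h5 hw
        intro m m' z z' h5 h6 h7 h8
        rw [h9 m z h5 h6, h9 m' z' h7 h8]
    · exact absurd h (hinf y)

/-- a criterion for the failure of bisequentiality -/
theorem not_biseq (hAD : ∀ i i', i ≠ i' → (A i ∩ A i').Finite) (l : Filter P) [l.NeBot] (hl1 : ∀ w : P, {w}ᶜ ∈ l) (hl2 : ∀ i, (A i)ᶜ ∈ l)
    (hmain : ∀ F : P → ℕ, (∀ M, {w | F w ≤ M} ∉ l) → ∃ i, ∀ M, ∃ w ∈ A i, M < F w) :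
    ¬ Bisequential (Sp A) := by
  classical
  intro hb
  have hle : Filter.map (pt : P → Sp A) l ≤ 𝓝 inft := by
    rw [le_nhds_iff]
    intro U hiU hU
    rw [Filter.mem_map]
    obtain ⟨F, hF, h3⟩ := (hU.2 hiU).2
    have h4 : ⋂ i ∈ F, (A i)ᶜ ∈ l := (Filter.biInter_mem hF).2 fun i _ => hl2 i
    have h5 : ⋂ w ∈ {w | (pt w : Sp A) ∉ U ∧ ∀ i ∈ F, w ∉ A i}, ({w}ᶜ : Set P) ∈ l :=
      (Filter.biInter_mem h3).2 fun i _ => hl1 i
    refine Filter.mem_of_superset (Filter.inter_mem h4 h5) ?_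
    rintro w ⟨h6, h7⟩
    by_contra h8
    rw [Set.mem_iInter₂] at h6 h7
    exact h7 w ⟨h8, fun i hi => h6 i hi⟩ rfl
  obtain ⟨B, hB1, hB2, hB3⟩ := hb inft (Ultrafilter.of (Filter.map (pt : P → Sp A) l))
    ((Ultrafilter.of_le _).trans hle)
  have hex : ∀ w : P, ∃ n, (pt w : Sp A) ∉ B n := by
    intro w
    obtain ⟨n, hn⟩ := hB3 {pt w}ᶜ ((isOpen_pt_compl w).mem_nhds (fun h => pt_ne_inft h.symm))
    exact ⟨n, fun h => hn h rfl⟩
  obtain ⟨i, hi⟩ := hmain (fun w => Nat.find (hex w)) (by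
    intro M hM
    have h1 : {w : P | (pt w : Sp A) ∉ B M} ∈ l := by
      refine Filter.mem_of_superset hM ?_
      intro w hw h2
      exact Nat.find_spec (hex w) (hB1 hw h2)
    have h2 : (pt '' {w : P | (pt w : Sp A) ∉ B M} : Set (Sp A)) ∈
        Ultrafilter.of (Filter.map (pt : P → Sp A) l) :=
      Ultrafilter.of_le _ (Filter.image_mem_map h1)
    have h3 := Filter.inter_mem h2 (hB2 M)
    obtain ⟨x, ⟨w, hw, rfl⟩, h4⟩ := (Ultrafilter.of (Filter.map (pt : P → Sp A) l)).neBot.nonempty_of_mem h3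
    exact hw h4)
  have hnb : (Nb i (A i))ᶜ ∈ 𝓝 (inft : Sp A) := (isOpen_Nb_compl hAD i).mem_nhds inft_mem_Nb
  obtain ⟨n, hn⟩ := hB3 _ hnb
  obtain ⟨w, hw, hwn⟩ := hi n
  have h5 : (pt w : Sp A) ∉ B n := fun h6 => hn h6 (pt_mem_Nb.2 hw)
  exact absurd (Nat.find_min' (hex w) h5) (not_le.2 hwn)

end space

end Pool.Agent.Q209.WD
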