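import Pool.Agent.Helper416.AR9
import Pool.Agent.Q209.WD.Star

set_option autoImplicit false

namespace Pool.Agent.Q209.WD

open Filter Topology Set
open Pool.Agent.Helper416.AR

section comb

variable {K : Type} [LinearOrder K] {L : K → ℕ → K} {g : K → (ℕ → Bool) → ℕ → K × ℕ}

/-- the legal indices: a level `d` and a branch `c` which codes a table along the ladder of `d` -/
def Leg (L : K → ℕ → K) (g : K → (ℕ → Bool) → ℕ → K × ℕ) (d : K) (c : ℕ → Bool) : Prop :=
  IsLad (L d) d ∧ (∀ n, L d n < (g d c n).1 ∧ (g d c n).1 < L d (n + 1)) ∧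
    (∀ n, (g d c n).2 ≤ n) ∧ ∀ j, ∃ N, ∀ n ≥ N, j < (g d c n).2

/-- the type of indices -/
def Idx (L : K → ℕ → K) (g : K → (ℕ → Bool) → ℕ → K × ℕ) : Type :=
  {p : K × (ℕ → Bool) // Leg L g p.1 p.2}

/-- the level of an index -/
def lev (i : Idx L g) : K := i.1.1

/-- the branch of an index -/
def brn (i : Idx L g) : ℕ → Bool := i.1.2

theorem leg (i : Idx L g) : Leg L g (lev i) (brn i) := i.2

theorem idx_ext {i i' : Idx L g} (h1 : lev i = lev i') (h2 : brn i = brn i') : i = i' :=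
  Subtype.ext (Prod.ext h1 h2)

/-- the table of an index -/
def tab (i : Idx L g) (n : ℕ) : K × ℕ := g (lev i) (brn i) n

/-- the set of an index -/
def As (i : Idx L g) : Set (K × ℕ) := {w | ∃ j, w = tab i (cd (brn i) j)}

theorem tab_lt (i : Idx L g) (n : ℕ) : (tab i n).1 < lev i :=
  ((leg i).2.1 n).2.trans ((leg i).1.2.1 (n + 1))

theorem tab_eq {i i' : Idx L g} (h : lev i = lev i') {n n' : ℕ} (hn : tab i n = tab i' n') :
    n = n' := by
  have h1 := (leg i).2.1 n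
  have h2 := (leg i').2.1 n'
  have h3 : (g (lev i) (brn i) n) = g (lev i') (brn i') n' := hn
  have hm := (leg i).1.1
  rw [← h] at h2 h3
  rw [h3] at h1
  have a1 : n < n' + 1 := hm.lt_iff_lt.1 (h1.1.trans h2.2)
  have a2 : n' < n + 1 := hm.lt_iff_lt.1 (h2.1.trans h1.2)
  omega

theorem tab_le {i : Idx L g} {ζ : K} (h : ζ < lev i) : ∃ N, ∀ n, (tab i n).1 ≤ ζ → n < N := by
  obtain ⟨N, hN⟩ := (leg i).1.2.2 ζ h
  refine ⟨N, fun n hn => ?_⟩
  by_contra hcon
  push Not at hcon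
  have h1 := (leg i).2.1 n
  have h2 := (leg i).1.1.monotone hcon
  exact absurd ((hN.trans_le h2).trans h1.1) (not_lt.2 hn)

theorem as_lt {i : Idx L g} {w : K × ℕ} (h : w ∈ As i) : w.1 < lev i := by
  obtain ⟨j, rfl⟩ := h
  exact tab_lt i _

theorem fin_of_tab {i : Idx L g} {S : Set (K × ℕ)} {N : ℕ} (h : ∀ n, tab i n ∈ S → n < N) :
    {w | w ∈ As i ∧ w ∈ S}.Finite := by
  refine ((Set.finite_Iio N).image (tab i)).subset ?_
  rintro _ ⟨⟨j, rfl⟩, h2⟩
  exact ⟨_, h _ h2, rfl⟩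

theorem fin_low {i : Idx L g} {ζ : K} (h : ζ < lev i) : {w | w ∈ As i ∧ w.1 ≤ ζ}.Finite := by
  obtain ⟨N, hN⟩ := tab_le h
  exact fin_of_tab (S := {w | w.1 ≤ ζ}) hN

theorem fin_col (i : Idx L g) (J : ℕ) : {w | w ∈ As i ∧ w.2 ≤ J}.Finite := by
  obtain ⟨N, hN⟩ := (leg i).2.2.2 J
  refine fin_of_tab (S := {w | w.2 ≤ J}) (N := N) (fun n hn => ?_)
  by_contra hcon
  push Not at hcon
  exact absurd (hN n hcon) (not_lt.2 hn)

theorem ad (i i' : Idx L g) (h : i ≠ i') : (As i ∩ As i').Finite := by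
  rcases lt_trichotomy (lev i) (lev i') with h1 | h1 | h1
  · refine (fin_low h1).subset ?_
    rintro w ⟨h2, h3⟩
    exact ⟨h3, (as_lt h2).le⟩
  · have h2 : brn i ≠ brn i' := fun h3 => h (idx_ext h1 h3)
    refine ((br_ad h2).image (tab i)).subset ?_
    rintro _ ⟨⟨j, rfl⟩, ⟨j', h3⟩⟩
    have h4 := tab_eq h1 h3
    exact ⟨_, ⟨⟨j, rfl⟩, ⟨j', h4.symm⟩⟩, rfl⟩
  · refine (fin_low h1).subset ?_
    rintro w ⟨h2, h3⟩
    exact ⟨h2, (as_lt h3).le⟩

/-- sequences of indices with increasing levels -/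
theorem star_inc [WellFoundedLT K] (hN : ∀ f : ℕ → K, ∃ b, ∀ n, f n < b)
    (hL : ∀ d, (∃ g, IsLad g d) → IsLad (L d) d)
    (f : ℕ → Idx L g) (hf : StrictMono fun m => lev (f m)) :
    ∃ B : ℕ → Set (K × ℕ), (∀ m, B m ⊆ As (f m)) ∧
    (∀ m, {w | w ∈ As (f m) ∧ w ∉ B m}.Finite) ∧
    (∀ m m' w, w ∈ B m → w ∈ B m' → m = m') ∧
    ∀ i, (∀ m, i ≠ f m) → {w | w ∈ As i ∧ ∃ m, w ∈ B m}.Finite := by
  obtain ⟨b, hb⟩ := exists_sup hN _ hf
  have hLb := hL b ⟨_, hb⟩
  refine ⟨fun m => {w | w ∈ As (f m) ∧ (∀ n, L b n < lev (f m) → L b n < w.1 ∧ n < w.2) ∧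
    ∀ m' < m, lev (f m') < w.1}, fun m w hw => hw.1, ?_, ?_, ?_⟩
  · intro m
    obtain ⟨N, hN'⟩ := hLb.2.2 _ (hb.2.1 m)
    have h1 : (⋃ n ∈ {n | n < N ∧ L b n < lev (f m)}, ({w | w ∈ As (f m) ∧ w.1 ≤ L b n} ∪
        {w | w ∈ As (f m) ∧ w.2 ≤ n})).Finite := by
      refine Set.Finite.biUnion ((Set.finite_Iio N).subset fun n hn => hn.1) ?_
      intro n hn
      exact (fin_low hn.2).union (fin_col _ _)
    have h2 : (⋃ m' ∈ {m' | m' < m}, {w | w ∈ As (f m) ∧ w.1 ≤ lev (f m')}).Finite := by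
      refine Set.Finite.biUnion (Set.finite_Iio m) ?_
      intro m' hm'
      exact fin_low (hf hm')
    refine (h1.union h2).subset ?_
    rintro w ⟨hw, hw2⟩
    by_contra h3
    apply hw2
    refine ⟨hw, fun n hn => ?_, fun m' hm' => ?_⟩
    · have hnN : n < N := by
        by_contra hcon
        push Not at hcon
        exact absurd (hN'.trans_le (hLb.1.monotone hcon)) (not_lt.2 hn.le)
      by_contra h4
      apply h3
      left
      refine Set.mem_iUnion₂.2 ⟨n, ⟨hnN, hn⟩, ?_⟩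
      by_cases h5 : L b n < w.1
      · right
        refine ⟨hw, ?_⟩
        by_contra h6
        exact h4 ⟨h5, not_le.1 h6⟩
      · exact Or.inl ⟨hw, not_lt.1 h5⟩
    · by_contra h4
      apply h3
      right
      exact Set.mem_iUnion₂.2 ⟨m', hm', hw, not_lt.1 h4⟩
  · have key : ∀ m m' w, m < m' → w ∈ As (f m) → lev (f m) < w.1 → False := by
      intro m m' w _ h1 h2
      exact absurd (as_lt h1) (not_lt.2 h2.le)
    rintro m m' w ⟨h1, _, h3⟩ ⟨h1', _, h3'⟩
    rcases lt_trichotomy m m' with h | h | h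
    · exact absurd (h3' m h) (not_lt.2 (as_lt h1).le)
    · exact h
    · exact absurd (h3 m' h) (not_lt.2 (as_lt h1').le)
  · intro i hi
    rcases lt_trichotomy (lev i) b with h | h | h
    · obtain ⟨m0, hm0⟩ := hb.2.2 _ h
      have h1 : (⋃ m ∈ {m | m ≤ m0}, (As i ∩ As (f m))).Finite :=
        Set.Finite.biUnion (Set.finite_Iic m0) fun m _ => ad _ _ (hi m)
      refine h1.subset ?_
      rintro w ⟨hw, m, hwm, _, h4⟩
      refine Set.mem_iUnion₂.2 ⟨m, ?_, hw, hwm⟩
      by_contra hcon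
      have h5 : m0 < m := not_le.1 hcon
      exact absurd ((as_lt hw).trans hm0) (not_lt.2 (h4 m0 h5).le)
    · convert Set.finite_empty
      ext w
      simp only [Set.mem_ofPred_eq, Set.mem_empty_iff_false, iff_false]
      rintro ⟨⟨j, rfl⟩, m, h1, h2, _⟩
      have h3 := (leg i).2.1 (cd (brn i) j)
      rw [h] at h3
      have h4 : L b (cd (brn i) j) < (tab i (cd (brn i) j)).1 := by
        have := h3.1
        unfold tab
        rw [h]
        exact this
      have h5 := (h2 _ (h4.trans (as_lt h1))).2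
      exact absurd ((leg i).2.2.1 (cd (brn i) j)) (not_le.2 h5)
    · refine (fin_low h).subset ?_
      rintro w ⟨hw, m, hwm, _⟩
      exact ⟨hw, ((as_lt hwm).trans (hb.2.1 m)).le⟩

/-- sequences of indices on one level, with branches converging to a branch -/
theorem star_const (f : ℕ → Idx L g) (d : K) (hd : ∀ m, lev (f m) = d) (x : ℕ → Bool)
    (δ : ℕ → ℕ) (hδ : StrictMono δ) (h1 : ∀ m, ∀ k < δ m, brn (f m) k = x k)
    (h2 : ∀ m, brn (f m) (δ m) ≠ x (δ m)) :
    ∃ B : ℕ → Set (K × ℕ), (∀ m, B m ⊆ As (f m)) ∧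
    (∀ m, {w | w ∈ As (f m) ∧ w ∉ B m}.Finite) ∧
    (∀ m m' w, w ∈ B m → w ∈ B m' → m = m') ∧
    ∀ i, (∀ m, i ≠ f m) → {w | w ∈ As i ∧ ∃ m, w ∈ B m}.Finite := by
  -- a branch which passes through a node of `f m` above `δ m` determines `m`
  have hdet : ∀ (c : ℕ → Bool) m m' j j', δ m < j → δ m' < j' →
      (∀ k < j, c k = brn (f m) k) → (∀ k < j', c k = brn (f m') k) → m = m' := by
    have hlt : ∀ (c : ℕ → Bool) m m' j j', δ m < j → δ m' < j' →
      (∀ k < j, c k = brn (f m) k) → (∀ k < j', c k = brn (f m') k) → ¬ m < m' := by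
      intro c m m' j j' hj hj' hc hc' hlt
      have e1 := hc (δ m) hj
      have e2 := hc' (δ m) ((hδ hlt).trans hj')
      have e3 := h1 m' (δ m) (hδ hlt)
      exact h2 m (e1.symm.trans (e2.trans e3))
    intro c m m' j j' hj hj' hc hc'
    rcases lt_trichotomy m m' with h | h | h
    · exact absurd h (hlt c m m' j j' hj hj' hc hc')
    · exact h
    · exact absurd h (hlt c m' m j' j hj' hj hc' hc)
  refine ⟨fun m => {w | ∃ j, δ m < j ∧ w = tab (f m) (cd (brn (f m)) j)}, ?_, ?_, ?_, ?_⟩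
  · rintro m w ⟨j, _, rfl⟩
    exact ⟨j, rfl⟩
  · intro m
    refine ((Set.finite_Iic (δ m)).image (fun j => tab (f m) (cd (brn (f m)) j))).subset ?_
    rintro _ ⟨⟨j, rfl⟩, h4⟩
    refine ⟨j, ?_, rfl⟩
    by_contra h5
    exact h4 ⟨j, not_le.1 h5, rfl⟩
  · rintro m m' _ ⟨j, hj, rfl⟩ ⟨j', hj', h4⟩
    have h5 := tab_eq ((hd m).trans (hd m').symm) h4
    obtain ⟨rfl, h6⟩ := cd_inj h5
    exact hdet (brn (f m)) m m' j j hj hj' (fun k _ => rfl) h6
  · intro i hi
    rcases lt_trichotomy (lev i) d with h | h | h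
    · -- lower levels
      have h0 : lev i < lev (f 0) := by rw [hd]; exact h
      obtain ⟨N, hN⟩ := (leg (f 0)).1.2.2 _ h0
      have hN' : ∀ m n, (tab (f m) n).1 < lev i → n < N := by
        intro m n hn
        by_contra hcon
        push Not at hcon
        have h3 := ((leg (f m)).2.1 n).1
        have h4 := (leg (f m)).1.1.monotone hcon
        rw [hd] at h3 h4 hN
        have h5 : (tab (f m) n) = g d (brn (f m)) n := by unfold tab; rw [hd]
        rw [h5] at hn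
        exact absurd ((hN.trans_le h4).trans h3) (not_lt.2 hn.le)
      obtain ⟨J, hJ⟩ := ((Set.finite_Iio N).image fun n => (eL.symm n).length).bddAbove
      have h3 : (⋃ m ∈ {m | m ≤ J}, (As i ∩ As (f m))).Finite :=
        Set.Finite.biUnion (Set.finite_Iic J) fun m _ => ad _ _ (hi m)
      refine h3.subset ?_
      rintro _ ⟨hw, m, j, hj, rfl⟩
      refine Set.mem_iUnion₂.2 ⟨m, ?_, hw, j, rfl⟩
      have h4 := hN' m _ (as_lt hw)
      have h5 := hJ ⟨_, h4, rfl⟩
      have h6 : (eL.symm (cd (brn (f m)) j)).length = j := by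
        unfold cd
        rw [Equiv.symm_apply_apply, pre_length]
      have h5' : (eL.symm (cd (brn (f m)) j)).length ≤ J := h5
      rw [h6] at h5'
      have h7 := hδ.le_apply (x := m)
      exact (h7.trans hj.le).trans h5'
    · -- the same level
      by_cases h3 : ∃ w, w ∈ As i ∧ ∃ m j, δ m < j ∧ w = tab (f m) (cd (brn (f m)) j)
      · obtain ⟨w, ⟨k, rfl⟩, m, j, hj, h4⟩ := h3
        have h5 := tab_eq (h.trans (hd m).symm) h4
        obtain ⟨rfl, h6⟩ := cd_inj h5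
        refine (ad _ _ (hi m)).subset ?_
        rintro w ⟨hw, m', j', hj', rfl⟩
        refine ⟨hw, ?_⟩
        obtain ⟨k', hk'⟩ := hw
        have h7 := tab_eq (h.trans (hd m').symm) hk'.symm
        obtain ⟨rfl, h8⟩ := cd_inj h7
        have h9 := hdet (brn i) m m' k k' hj hj' h6 h8
        subst h9
        exact ⟨_, rfl⟩
      · convert Set.finite_empty
        ext w
        simp only [Set.mem_ofPred_eq, Set.mem_empty_iff_false, iff_false]
        rintro ⟨hw, m, j, hj, hwj⟩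
        exact h3 ⟨w, hw, m, j, hj, hwj⟩
    · refine (fin_low h).subset ?_
      rintro w ⟨hw, m, j, _, rfl⟩
      refine ⟨hw, ?_⟩
      have := tab_lt (f m) (cd (brn (f m)) j)
      rw [hd] at this
      exact this.le

end comb

end Pool.Agent.Q209.WD
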