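import Pool.Agent.Q209.WD.Comb

set_option autoImplicit false

namespace Pool.Agent.Q209.WD

open Filter Topology Set
open Pool.Agent.Helper416.AR

section comb

variable {K : Type} [LinearOrder K] {L : K → ℕ → K} {g : K → (ℕ → Bool) → ℕ → K × ℕ}

theorem no_anti [WellFoundedLT K] (s : ℕ → K) : ¬ ∀ n, s (n + 1) < s n := by
  intro h
  have hne : (Set.range s).Nonempty := ⟨s 0, 0, rfl⟩
  obtain ⟨n, hn⟩ := wellFounded_lt.min_mem _ hne
  have h1 := h n
  rw [hn] at h1
  exact wellFounded_lt.not_lt_min (Set.range s) ⟨n + 1, rfl⟩ h1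

theorem star [WellFoundedLT K] (hN : ∀ f : ℕ → K, ∃ b, ∀ n, f n < b)
    (hL : ∀ d, (∃ g, IsLad g d) → IsLad (L d) d) :
    Star (As : Idx L g → Set (K × ℕ)) := by
  classical
  intro D hD
  by_cases h1 : (lev '' D).Infinite
  · set e := h1.natEmbedding with he
    have hex : ∀ n, ∃ i ∈ D, lev i = (e n).1 := fun n => (e n).2
    choose s hs1 hs2 using hex
    have hinj : ∀ a b, lev (s a) = lev (s b) → a = b := by
      intro a b hab
      rw [hs2, hs2] at hab
      exact e.injective (Subtype.ext hab)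
    obtain ⟨φ, hφ | hφ⟩ := exists_increasing_or_nonincreasing_subseq (· < ·)
      (fun n => lev (s n))
    · have hmono : StrictMono fun m => lev (s (φ m)) := fun a b hab => hφ a b hab
      obtain ⟨B, hB1, hB2, hB3, hB4⟩ := star_inc hN hL (fun m => s (φ m)) hmono
      refine ⟨fun m => s (φ m), B, ?_, fun m => hs1 _, hB1, hB2, hB3, hB4⟩
      intro a b hab
      exact hmono.injective (congrArg lev hab)
    · exfalso
      refine no_anti (fun n => lev (s (φ n))) fun n => ?_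
      refine lt_of_le_of_ne (not_lt.1 (hφ n (n + 1) (Nat.lt_succ_self n))) ?_
      intro h2
      have := φ.injective (hinj _ _ h2)
      omega
  · rw [Set.not_infinite] at h1
    have h2 : ∃ d, {i | i ∈ D ∧ lev i = d}.Infinite := by
      by_contra hcon
      push Not at hcon
      apply hD
      refine (h1.biUnion fun d _ => hcon d).subset ?_
      intro i hi
      exact Set.mem_iUnion₂.2 ⟨lev i, ⟨i, hi, rfl⟩, hi, rfl⟩
    obtain ⟨d, hd⟩ := h2
    have h3 : (brn '' {i | i ∈ D ∧ lev i = d}).Infinite := by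
      refine hd.image ?_
      intro i hi i' hi' h
      exact idx_ext (hi.2.trans hi'.2.symm) h
    obtain ⟨x, -, hx⟩ := h3.exists_accPt_of_subset_isCompact isCompact_univ
      (Set.subset_univ _)
    have h4 : ∀ n : ℕ, ∃ i : Idx L g, ∃ δ : ℕ, i ∈ D ∧ lev i = d ∧ n ≤ δ ∧
        (∀ k < δ, brn i k = x k) ∧ brn i δ ≠ x δ := by
      intro n
      have hop : IsOpen {c : ℕ → Bool | ∀ k ∈ Finset.range n, c k = x k} := by
        have : {c : ℕ → Bool | ∀ k ∈ Finset.range n, c k = x k} =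
            ⋂ k ∈ Finset.range n, {c : ℕ → Bool | c k = x k} := by
          ext c; simp
        rw [this]
        refine isOpen_biInter_finset fun k _ => ?_
        have h6 : Continuous fun c : ℕ → Bool => c k := continuous_apply k
        exact (isOpen_discrete ({x k} : Set Bool)).preimage h6
      have h5 := (accPt_iff_nhds.1 hx) _ (hop.mem_nhds (fun k _ => rfl))
      obtain ⟨c, ⟨hc1, i, ⟨hiD, hid⟩, hic⟩, hcx⟩ := h5
      have hne : ∃ k, brn i k ≠ x k := by
        rw [hic]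
        exact Function.ne_iff.1 hcx
      refine ⟨i, Nat.find hne, hiD, hid, ?_, ?_, Nat.find_spec hne⟩
      · by_contra hcon
        push Not at hcon
        apply Nat.find_spec hne
        have := hc1 (Nat.find hne) (Finset.mem_range.2 hcon)
        exact (congrFun hic _).trans this
      · intro k hk
        by_contra h6
        exact Nat.find_min hne hk h6
    choose s δ hs1 hs2 hs3 hs4 hs5 using h4
    obtain ⟨φ, hφ, hφ2⟩ := strictMono_subseq_of_id_le hs3
    obtain ⟨B, hB1, hB2, hB3, hB4⟩ := star_const (fun m => s (φ m)) d (fun m => hs2 _) x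
      (fun m => δ (φ m)) hφ2 (fun m => hs4 _) (fun m => hs5 _)
    refine ⟨fun m => s (φ m), B, ?_, fun m => hs1 _, hB1, hB2, hB3, hB4⟩
    have hlt : ∀ a b, a < b → s (φ a) ≠ s (φ b) := by
      intro a b hab h
      have h6 := hs4 (φ b) (δ (φ a)) (hφ2 hab)
      rw [← h] at h6
      exact hs5 (φ a) h6
    intro a b hab
    rcases lt_trichotomy a b with h | h | h
    · exact absurd hab (hlt a b h)
    · exact h
    · exact absurd hab.symm (hlt b a h)

/-- a function which is not bounded modulo the ideal is unbounded on some set of the family -/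
theorem unb_on [WellFoundedLT K] [Nonempty K] (hN : ∀ f : ℕ → K, ∃ b, ∀ n, f n < b)
    (hE : ∀ E : Set K, Club E → ∃ d, IsLad (L d) d ∧ ∀ n, L d n ∈ E)
    (hg : ∀ (d : K) (y : ℕ → K × ℕ), (∀ n, (y n).1 < d) → ∃ c, g d c = y)
    (F : K × ℕ → ℕ) (hF : ∀ M, {w | F w ≤ M} ∉ (atTop : Filter (K × ℕ))) :
    ∃ i : Idx L g, ∀ M, ∃ w ∈ As i, M < F w := by
  classical
  have h1 : ∀ M n0 : ℕ, ∃ n, n0 ≤ n ∧ Unb {k : K | M < F (k, n)} := by
    intro M n0
    by_contra hcon
    push Not at hcon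
    have h2 : ∀ n, ∃ a : K, n0 ≤ n → ∀ x, M < F (x, n) → x ≤ a := by
      intro n
      by_cases hn : n0 ≤ n
      · have h3 := hcon n hn
        unfold Unb at h3
        push Not at h3
        obtain ⟨a, ha⟩ := h3
        exact ⟨a, fun _ x hx => ha x hx⟩
      · obtain ⟨k⟩ := (inferInstance : Nonempty K)
        exact ⟨k, fun h => absurd h hn⟩
    choose a ha using h2
    obtain ⟨b, hb⟩ := hN a
    apply hF M
    rw [Filter.mem_atTop_sets]
    refine ⟨(b, n0), ?_⟩
    rintro ⟨k, n⟩ ⟨hk, hn⟩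
    change F (k, n) ≤ M
    by_contra h3
    exact absurd ((ha n hn k (not_le.1 h3)).trans_lt (hb n)) (not_lt.2 hk)
  choose p hp1 hp2 using h1
  set ν : ℕ → ℕ := fun M => Nat.rec (p 0 0) (fun M r => p (M + 1) (r + 1)) M with hν
  have hν1 : ∀ M, ν (M + 1) = p (M + 1) (ν M + 1) := fun M => rfl
  have hνm : StrictMono ν := by
    refine strictMono_nat_of_lt_succ fun M => ?_
    rw [hν1]
    exact lt_of_lt_of_le (Nat.lt_succ_self _) (hp1 _ _)
  have hνu : ∀ M, Unb {k : K | M < F (k, ν M)} := by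
    intro M
    cases M with
    | zero => exact hp2 0 0
    | succ M => rw [hν1]; exact hp2 _ _
  obtain ⟨d, hd1, hd2⟩ := hE _ (club_lim hN hN (fun M => {k : K | M < F (k, ν M)}) hνu)
  -- the best index available at `n`
  set μ : ℕ → ℕ := fun n => Nat.findGreatest (fun M => ν M ≤ n) n with hμ
  have hμ1 : ∀ n M, ν M ≤ n → ν (μ n) ≤ n ∧ M ≤ μ n := by
    intro n M h
    have h2 : M ≤ n := (hνm.le_apply (x := M)).trans h
    exact ⟨Nat.findGreatest_spec (P := fun M => ν M ≤ n) h2 h, Nat.le_findGreatest h2 h⟩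
  have hk : ∀ n, ∃ k, μ n < F (k, ν (μ n)) ∧ L d n < k ∧ k < L d (n + 1) := by
    intro n
    obtain ⟨k, hk1, hk2, hk3⟩ := (hd2 (n + 1) (μ n)).2 (L d n) (hd1.1 (Nat.lt_succ_self n))
    exact ⟨k, hk1, hk2, hk3⟩
  choose k hk1 hk2 hk3 using hk
  obtain ⟨c, hc⟩ := hg d (fun n => (k n, if ν (μ n) ≤ n then ν (μ n) else 0)) (fun n =>
    (hk3 n).trans (hd1.2.1 _))
  have hleg : Leg L g d c := by
    refine ⟨hd1, fun n => ?_, fun n => ?_, fun j => ⟨ν (j + 1), fun n hn => ?_⟩⟩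
    · rw [hc]
      exact ⟨hk2 n, hk3 n⟩
    · rw [hc]
      change (if ν (μ n) ≤ n then ν (μ n) else 0) ≤ n
      split_ifs with h
      · exact h
      · exact Nat.zero_le _
    · rw [hc]
      change j < (if ν (μ n) ≤ n then ν (μ n) else 0)
      obtain ⟨h2, h3⟩ := hμ1 n (j + 1) hn
      rw [if_pos h2]
      exact lt_of_lt_of_le (Nat.lt_succ_self j) (h3.trans (hνm.le_apply (x := μ n)))
  refine ⟨⟨(d, c), hleg⟩, fun M => ?_⟩
  obtain ⟨m, hm⟩ := cd_large c (ν M)
  refine ⟨tab (⟨(d, c), hleg⟩ : Idx L g) (cd c m), ⟨m, rfl⟩, ?_⟩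
  change M < F (g d c (cd c m))
  rw [hc]
  obtain ⟨h2, h3⟩ := hμ1 (cd c m) M (hm m le_rfl).le
  change M < F (k (cd c m), if ν (μ (cd c m)) ≤ cd c m then ν (μ (cd c m)) else 0)
  rw [if_pos h2]
  exact lt_of_le_of_lt h3 (hk1 _)

end comb

open Cardinal in
theorem exists_dt : ∃ (K : Type) (_ : LinearOrder K) (_ : WellFoundedLT K) (_ : Nonempty K)
    (L : K → ℕ → K) (g : K → (ℕ → Bool) → ℕ → K × ℕ),
    (∀ f : ℕ → K, ∃ b, ∀ n, f n < b) ∧ (∀ d, (∃ g, IsLad g d) → IsLad (L d) d) ∧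
    (∀ E : Set K, Club E → ∃ d, IsLad (L d) d ∧ ∀ n, L d n ∈ E) ∧
    ∀ (d : K) (y : ℕ → K × ℕ), (∀ n, (y n).1 < d) → ∃ c, g d c = y := by
  classical
  obtain ⟨W, i1, i2, hW1, hW2, hW3, hW4⟩ := exists_reg ℵ₀ le_rfl
  obtain ⟨K, j1, j2, hK1, hK2, hK3, hK4⟩ := exists_reg 𝔠 aleph0_le_continuum
  have hWc : #W ≤ 𝔠 := by
    rw [hW2]
    exact Order.succ_le_of_lt aleph0_lt_continuum
  have hWN : ∀ f : ℕ → W, ∃ b, ∀ n, f n < b := fun f => hW4 ℕ f (by simp)
  have hKN : ∀ f : ℕ → K, ∃ b, ∀ n, f n < b := fun f =>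
    hK4 ℕ f (by rw [mk_nat]; exact aleph0_le_continuum)
  have hWK : ∀ f : W → K, ∃ b, ∀ i, f i < b := fun f => hK4 W f hWc
  obtain ⟨L, hL1, hL2⟩ := club_guess (W := W) hWK hKN hWN
  have hg : ∀ d : K, ∃ g : (ℕ → Bool) → ℕ → K × ℕ,
      ∀ y : ℕ → K × ℕ, (∀ n, (y n).1 < d) → ∃ c, g c = y := by
    intro d
    have h3 : #(ℕ → Set.Iio d × ℕ) ≤ #(ℕ → Bool) := by
      rw [mk_cantor]
      refine mk_pi_le (mk_prod_le (hK3 d) ?_)
      rw [mk_nat]; exact aleph0_le_continuum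
    obtain ⟨ι⟩ := h3
    refine ⟨fun c => if h : ∃ y, ι y = c then fun n => ((h.choose n).1.1, (h.choose n).2) else
      fun _ => (d, 0), ?_⟩
    intro y hy
    refine ⟨ι fun n => (⟨(y n).1, hy n⟩, (y n).2), ?_⟩
    have h : ∃ y', ι y' = ι fun n => (⟨(y n).1, hy n⟩, (y n).2) := ⟨_, rfl⟩
    simp only
    rw [dif_pos h]
    have := ι.injective h.choose_spec
    rw [this]
  choose g hg using hg
  exact ⟨K, j1, j2, hK1, L, g, hKN, hL1, hL2, hg⟩

theorem loc_count {P I : Type} {A : I → Set P} (hAD : ∀ i i', i ≠ i' → (A i ∩ A i').Finite)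
    (hc : ∀ i, (A i).Countable) (x : Sp A) (hx : x ≠ inft) :
    ∃ U : Set (Sp A), IsOpen U ∧ IsCompact U ∧ U.Countable ∧ x ∈ U := by
  have := compact (A := A)
  rcases sp_cases x with ⟨w, rfl⟩ | ⟨i, rfl⟩ | rfl
  · exact ⟨{pt w}, isOpen_pt w, isCompact_singleton, Set.countable_singleton _, rfl⟩
  · refine ⟨Nb i (A i), isOpen_Nb ?_, ?_, ?_, Or.inl rfl⟩
    · convert Set.finite_empty
      ext w; simp
    · refine IsClosed.isCompact ?_
      rw [← isOpen_compl_iff]
      exact isOpen_Nb_compl hAD i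
    · refine ((Set.countable_singleton (ix i : Sp A)).union ((hc i).image pt)).mono ?_
      rintro x (h | ⟨w, hw, h⟩)
      · exact Or.inl h
      · exact Or.inr ⟨w, hw, h.symm⟩
  · exact absurd rfl hx

theorem as_count {K : Type} [LinearOrder K] {L : K → ℕ → K} {g : K → (ℕ → Bool) → ℕ → K × ℕ}
    (i : Idx L g) : (As i).Countable := by
  refine (Set.countable_range (tab i)).mono ?_
  rintro _ ⟨j, rfl⟩
  exact ⟨_, rfl⟩

theorem main : ∃ (X : Type) (_ : TopologicalSpace X), T2Space X ∧ CompactSpace X ∧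
    Scattered X ∧ FrechetUrysohnSpace X ∧
    (∃ p : X, ∀ x : X, x ≠ p → ∃ U : Set X, IsOpen U ∧ IsCompact U ∧ U.Countable ∧ x ∈ U) ∧
    HereditarilyWD X ∧ ¬ Bisequential X := by
  obtain ⟨K, _, _, _, L, g, hN, hL, hE, hg⟩ := exists_dt
  refine ⟨Sp (As : Idx L g → Set (K × ℕ)), inferInstance, t2 ad, compact, scattered,
    frechet (star hN hL), ⟨inft, fun x hx => loc_count ad as_count x hx⟩,
    hered_wd (star hN hL), not_biseq ad (atTop : Filter (K × ℕ)) ?_ ?_ (unb_on hN hE hg)⟩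
  · intro w
    rw [Filter.mem_atTop_sets]
    refine ⟨(w.1, w.2 + 1), ?_⟩
    rintro b hb rfl
    have := hb.2
    simp at this
  · intro i
    rw [Filter.mem_atTop_sets]
    refine ⟨(lev i, 0), ?_⟩
    rintro b hb h
    exact absurd (as_lt h) (not_lt.2 hb.1)

end Pool.Agent.Q209.WD
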