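import Mathlib

set_option autoImplicit false

namespace Pool.Agent.Q209.WD

open Filter Topology Set

/-- every nonempty subset has a relatively isolated point -/
def Scattered (X : Type) [TopologicalSpace X] : Prop :=
  ∀ A : Set X, A.Nonempty → ∃ x ∈ A, ∃ U : Set X, IsOpen U ∧ U ∩ A = {x}

/-- van Douwen's property wD: every infinite closed discrete set `D` has an infinite subset `D'`
whose points have open neighbourhoods forming a discrete family -/
def PropertyWD (Y : Type) [TopologicalSpace Y] : Prop :=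
  ∀ D : Set Y, D.Infinite → IsClosed D → DiscreteTopology D →
    ∃ D' : Set Y, D' ⊆ D ∧ D'.Infinite ∧ ∃ U : Y → Set Y,
      (∀ d ∈ D', IsOpen (U d) ∧ d ∈ U d) ∧
      ∀ y : Y, ∃ V : Set Y, IsOpen V ∧ y ∈ V ∧ {d | d ∈ D' ∧ (U d ∩ V).Nonempty}.Subsingleton

/-- every subspace has property wD -/
def HereditarilyWD (X : Type) [TopologicalSpace X] : Prop :=
  ∀ Y : Set X, PropertyWD Y

/-- every convergent ultrafilter contains a decreasing sequence of sets with the same limit -/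
def Bisequential (X : Type) [TopologicalSpace X] : Prop :=
  ∀ (x : X) (u : Ultrafilter X), (u : Filter X) ≤ 𝓝 x →
    ∃ A : ℕ → Set X, Antitone A ∧ (∀ n, A n ∈ u) ∧ ∀ V ∈ 𝓝 x, ∃ n, A n ⊆ V

section space

variable {P I : Type}

/-- points: isolated points, indices, and one point at infinity -/
def Sp (_A : I → Set P) : Type := Option (P ⊕ I)

variable {A : I → Set P}

/-- isolated points -/
def pt (w : P) : Sp A := some (Sum.inl w)

/-- indices -/
def ix (i : I) : Sp A := some (Sum.inr i)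

/-- the point at infinity -/
def inft : Sp A := none

theorem pt_inj {w w' : P} (h : (pt w : Sp A) = pt w') : w = w' :=
  Sum.inl_injective (Option.some_injective _ h)

theorem ix_inj {i i' : I} (h : (ix i : Sp A) = ix i') : i = i' :=
  Sum.inr_injective (Option.some_injective _ h)

theorem pt_ne_ix {w : P} {i : I} : (pt w : Sp A) ≠ ix i := by
  intro h
  have := Option.some_injective _ h
  cases this

theorem pt_ne_inft {w : P} : (pt w : Sp A) ≠ inft := by
  intro h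
  cases h

theorem ix_ne_inft {i : I} : (ix i : Sp A) ≠ inft := by
  intro h
  cases h

theorem sp_cases (x : Sp A) : (∃ w, x = pt w) ∨ (∃ i, x = ix i) ∨ x = inft := by
  rcases x with _ | (w | i)
  · exact Or.inr (Or.inr rfl)
  · exact Or.inl ⟨w, rfl⟩
  · exact Or.inr (Or.inl ⟨i, rfl⟩)

/-- the open sets -/
def Opn (U : Set (Sp A)) : Prop :=
  (∀ i, ix i ∈ U → {w | w ∈ A i ∧ (pt w : Sp A) ∉ U}.Finite) ∧
  (inft ∈ U → {i | (ix i : Sp A) ∉ U}.Finite ∧
    ∃ F : Set I, F.Finite ∧ {w | (pt w : Sp A) ∉ U ∧ ∀ i ∈ F, w ∉ A i}.Finite)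

instance : TopologicalSpace (Sp A) where
  IsOpen := Opn
  isOpen_univ := by
    refine ⟨fun i _ => ?_, fun _ => ⟨?_, ∅, Set.finite_empty, ?_⟩⟩
    · convert Set.finite_empty
      ext w; simp
    · convert Set.finite_empty
      ext w; simp
    · convert Set.finite_empty
      ext w; simp
  isOpen_inter := by
    rintro U V ⟨hU1, hU2⟩ ⟨hV1, hV2⟩
    refine ⟨fun i hi => ?_, fun h => ?_⟩
    · refine ((hU1 i hi.1).union (hV1 i hi.2)).subset ?_
      rintro w ⟨h1, h2⟩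
      by_cases h3 : (pt w : Sp A) ∈ U
      · exact Or.inr ⟨h1, fun h4 => h2 ⟨h3, h4⟩⟩
      · exact Or.inl ⟨h1, h3⟩
    · obtain ⟨hU3, F, hF, hU4⟩ := hU2 h.1
      obtain ⟨hV3, G, hG, hV4⟩ := hV2 h.2
      refine ⟨?_, F ∪ G, hF.union hG, ?_⟩
      · refine (hU3.union hV3).subset ?_
        intro w h2
        by_cases h3 : (ix w : Sp A) ∈ U
        · exact Or.inr fun h4 => h2 ⟨h3, h4⟩
        · exact Or.inl h3
      · refine (hU4.union hV4).subset ?_
        rintro w ⟨h1, h2⟩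
        by_cases h3 : (pt w : Sp A) ∈ U
        · exact Or.inr ⟨fun h4 => h1 ⟨h3, h4⟩, fun i hi => h2 i (Or.inr hi)⟩
        · exact Or.inl ⟨h3, fun i hi => h2 i (Or.inl hi)⟩
  isOpen_sUnion := by
    intro S hS
    refine ⟨fun i hi => ?_, fun h => ?_⟩
    · obtain ⟨U, hU, hiU⟩ := hi
      refine ((hS U hU).1 i hiU).subset ?_
      rintro w ⟨h1, h2⟩
      exact ⟨h1, fun h3 => h2 ⟨U, hU, h3⟩⟩
    · obtain ⟨U, hU, hiU⟩ := h
      obtain ⟨h3, F, hF, h4⟩ := (hS U hU).2 hiU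
      refine ⟨h3.subset ?_, F, hF, h4.subset ?_⟩
      · intro i h5 h6
        exact h5 ⟨U, hU, h6⟩
      · rintro w ⟨h5, h6⟩
        exact ⟨fun h7 => h5 ⟨U, hU, h7⟩, h6⟩

theorem isOpen_def {U : Set (Sp A)} : IsOpen U ↔ Opn U := Iff.rfl

theorem isOpen_pts {U : Set (Sp A)} (h : ∀ x ∈ U, ∃ w, x = pt w) : IsOpen U := by
  rw [isOpen_def]
  refine ⟨fun i hi => ?_, fun hi => ?_⟩
  · obtain ⟨w, hw⟩ := h _ hi
    exact absurd hw.symm pt_ne_ix
  · obtain ⟨w, hw⟩ := h _ hi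
    exact absurd hw.symm pt_ne_inft

theorem isOpen_pt (w : P) : IsOpen ({pt w} : Set (Sp A)) :=
  isOpen_pts fun x hx => ⟨w, hx⟩

theorem isOpen_pt_compl (w : P) : IsOpen ({pt w}ᶜ : Set (Sp A)) := by
  rw [isOpen_def]
  refine ⟨fun i _ => (Set.finite_singleton w).subset ?_, fun _ => ⟨?_, ∅, Set.finite_empty,
    (Set.finite_singleton w).subset ?_⟩⟩
  · rintro w' ⟨_, h⟩
    rw [Set.mem_compl_iff, not_not] at h
    exact pt_inj h
  · convert Set.finite_empty
    ext i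
    simp only [Set.mem_compl_iff, Set.mem_singleton_iff, not_not, Set.mem_ofPred_eq,
      Set.mem_empty_iff_false, iff_false]
    exact fun h => pt_ne_ix h.symm
  · rintro w' ⟨h, _⟩
    rw [Set.mem_compl_iff, not_not] at h
    exact pt_inj h

/-- a basic neighbourhood of `ix i` -/
def Nb (i : I) (B : Set P) : Set (Sp A) := {x | x = ix i ∨ ∃ w ∈ B, x = pt w}

theorem ix_mem_Nb {i i' : I} {B : Set P} : (ix i' : Sp A) ∈ Nb i B ↔ i' = i := by
  constructor
  · rintro (h | ⟨w, _, h⟩)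
    · exact ix_inj h
    · exact absurd h.symm pt_ne_ix
  · rintro rfl
    exact Or.inl rfl

theorem pt_mem_Nb {i : I} {w : P} {B : Set P} : (pt w : Sp A) ∈ Nb i B ↔ w ∈ B := by
  constructor
  · rintro (h | ⟨w', h', h⟩)
    · exact absurd h pt_ne_ix
    · rw [pt_inj h]; exact h'
  · intro h
    exact Or.inr ⟨w, h, rfl⟩

theorem inft_mem_Nb {i : I} {B : Set P} : (inft : Sp A) ∉ Nb i B := by
  rintro (h | ⟨w', h', h⟩)
  · exact ix_ne_inft h.symm
  · exact pt_ne_inft h.symm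

theorem isOpen_Nb {i : I} {B : Set P} (h : {w | w ∈ A i ∧ w ∉ B}.Finite) :
    IsOpen (Nb i B : Set (Sp A)) := by
  rw [isOpen_def]
  refine ⟨fun i' hi' => ?_, fun hi => absurd hi inft_mem_Nb⟩
  rw [ix_mem_Nb] at hi'
  subst hi'
  refine h.subset ?_
  rintro w ⟨h1, h2⟩
  rw [pt_mem_Nb] at h2
  exact ⟨h1, h2⟩

theorem isOpen_Nb_compl (hAD : ∀ i i', i ≠ i' → (A i ∩ A i').Finite) (i : I) :
    IsOpen ((Nb i (A i))ᶜ : Set (Sp A)) := by
  rw [isOpen_def]
  refine ⟨fun i' hi' => ?_, fun _ => ⟨?_, {i}, Set.finite_singleton i, ?_⟩⟩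
  · rw [Set.mem_compl_iff, ix_mem_Nb] at hi'
    refine (hAD i i' (Ne.symm hi')).subset ?_
    rintro w ⟨h1, h2⟩
    rw [Set.mem_compl_iff, not_not, pt_mem_Nb] at h2
    exact ⟨h2, h1⟩
  · refine (Set.finite_singleton i).subset ?_
    intro i' hi'
    rw [Set.mem_ofPred_eq, Set.mem_compl_iff, not_not, ix_mem_Nb] at hi'
    exact hi'
  · convert Set.finite_empty
    ext w
    simp only [Set.mem_compl_iff, not_not, Set.mem_ofPred_eq, pt_mem_Nb,
      Set.mem_singleton_iff, forall_eq, Set.mem_empty_iff_false, iff_false]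
    tauto

theorem t2 (hAD : ∀ i i', i ≠ i' → (A i ∩ A i').Finite) : T2Space (Sp A) := by
  have key : ∀ x y : Sp A, x ≠ y → x ≠ inft → ∃ U : Set (Sp A), IsOpen U ∧ IsOpen Uᶜ ∧
      x ∈ U ∧ y ∉ U := by
    intro x y hxy hx
    rcases sp_cases x with ⟨w, rfl⟩ | ⟨i, rfl⟩ | rfl
    · exact ⟨{pt w}, isOpen_pt w, isOpen_pt_compl w, rfl, fun h => hxy h.symm⟩
    · rcases sp_cases y with ⟨w, rfl⟩ | ⟨i', rfl⟩ | rfl
      · refine ⟨{pt w}ᶜ, isOpen_pt_compl w, ?_, fun h => hxy h, fun h => h rfl⟩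
        rw [compl_compl]
        exact isOpen_pt w
      · refine ⟨Nb i (A i), isOpen_Nb ?_, isOpen_Nb_compl hAD i, Or.inl rfl, ?_⟩
        · convert Set.finite_empty
          ext w; simp
        · rw [ix_mem_Nb]
          rintro rfl
          exact hxy rfl
      · refine ⟨Nb i (A i), isOpen_Nb ?_, isOpen_Nb_compl hAD i, Or.inl rfl, inft_mem_Nb⟩
        convert Set.finite_empty
        ext w; simp
    · exact absurd rfl hx
  refine ⟨fun x y hxy => ?_⟩
  by_cases hx : x = inft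
  · subst hx
    obtain ⟨U, h1, h2, h3, h4⟩ := key y inft (Ne.symm hxy) (Ne.symm hxy)
    exact ⟨Uᶜ, U, h2, h1, h4, h3, disjoint_compl_left⟩
  · obtain ⟨U, h1, h2, h3, h4⟩ := key x y hxy hx
    exact ⟨U, Uᶜ, h1, h2, h3, h4, disjoint_compl_right⟩

theorem compact : CompactSpace (Sp A) := by
  refine ⟨isCompact_iff_ultrafilter_le_nhds.2 fun u _ => ?_⟩
  by_cases hfin : ∃ S : Set (Sp A), S.Finite ∧ S ∈ u
  · obtain ⟨S, hS, hSu⟩ := hfin
    obtain ⟨x, -, hx⟩ := (Ultrafilter.finite_biUnion_mem_iff (f := u) (is := S)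
      (s := fun x => ({x} : Set (Sp A))) hS).1 (by
        rw [Set.biUnion_of_singleton]; exact hSu)
    refine ⟨x, trivial, ?_⟩
    intro V hV
    exact Filter.mem_of_superset hx (by
      intro z hz
      rw [Set.mem_singleton_iff] at hz
      rw [hz]
      exact mem_of_mem_nhds hV)
  have hfin' : ∀ S : Set (Sp A), S.Finite → S ∉ u := fun S h1 h2 => hfin ⟨S, h1, h2⟩
  by_cases hi : ∃ i : I, (pt '' A i : Set (Sp A)) ∈ u
  · obtain ⟨i, hi⟩ := hi
    refine ⟨ix i, trivial, ?_⟩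
    rw [le_nhds_iff]
    intro U hiU hU
    by_contra hcon
    have h1 : Uᶜ ∈ u := Ultrafilter.compl_mem_iff_notMem.2 hcon
    have h2 : Uᶜ ∩ (pt '' A i : Set (Sp A)) ∈ u := Filter.inter_mem h1 hi
    refine hfin' _ ?_ h2
    refine ((hU.1 i hiU).image (pt : P → Sp A)).subset ?_
    rintro _ ⟨h3, w, hw, rfl⟩
    exact ⟨w, ⟨hw, h3⟩, rfl⟩
  · push Not at hi
    refine ⟨inft, trivial, ?_⟩
    rw [le_nhds_iff]
    intro U hiU hU
    by_contra hcon
    have h1 : Uᶜ ∈ u := Ultrafilter.compl_mem_iff_notMem.2 hcon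
    obtain ⟨h2, F, hF, h3⟩ := hU.2 hiU
    have h4 : Uᶜ ⊆ (((ix : I → Sp A) '' {i | (ix i : Sp A) ∉ U}) ∪
        ((pt : P → Sp A) '' {w | (pt w : Sp A) ∉ U ∧ ∀ i ∈ F, w ∉ A i})) ∪
        ⋃ i ∈ F, (pt '' A i : Set (Sp A)) := by
      intro x hx
      rcases sp_cases x with ⟨w, rfl⟩ | ⟨i, rfl⟩ | rfl
      · by_cases h5 : ∀ i ∈ F, w ∉ A i
        · exact Or.inl (Or.inr ⟨w, ⟨hx, h5⟩, rfl⟩)
        · push Not at h5
          obtain ⟨i, hiF, hwi⟩ := h5
          exact Or.inr (Set.mem_iUnion₂.2 ⟨i, hiF, w, hwi, rfl⟩)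
      · exact Or.inl (Or.inl ⟨i, hx, rfl⟩)
      · exact absurd hiU hx
    have h5 := Filter.mem_of_superset h1 h4
    rcases Ultrafilter.union_mem_iff.1 h5 with h6 | h6
    · exact hfin' _ ((h2.image _).union (h3.image _)) h6
    · rw [Ultrafilter.finite_biUnion_mem_iff hF] at h6
      obtain ⟨i, _, h7⟩ := h6
      exact hi i h7

theorem scattered : Scattered (Sp A) := by
  intro S hS
  by_cases h1 : ∃ w, (pt w : Sp A) ∈ S
  · obtain ⟨w, hw⟩ := h1
    refine ⟨pt w, hw, {pt w}, isOpen_pt w, ?_⟩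
    rw [Set.inter_eq_left]
    rintro x rfl
    exact hw
  push Not at h1
  by_cases h2 : ∃ i, (ix i : Sp A) ∈ S
  · obtain ⟨i, hi⟩ := h2
    refine ⟨ix i, hi, Nb i (A i), isOpen_Nb ?_, ?_⟩
    · convert Set.finite_empty
      ext w; simp
    · ext x
      constructor
      · rintro ⟨h3 | ⟨w, _, h3⟩, h4⟩
        · exact h3
        · rw [h3] at h4
          exact absurd h4 (h1 w)
      · intro h3
        rw [Set.mem_singleton_iff] at h3
        rw [h3]
        exact ⟨Or.inl rfl, hi⟩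
  · push Not at h2
    obtain ⟨x, hx⟩ := hS
    have hall : ∀ y ∈ S, y = inft := by
      intro y hy
      rcases sp_cases y with ⟨w, rfl⟩ | ⟨i, rfl⟩ | rfl
      · exact absurd hy (h1 w)
      · exact absurd hy (h2 i)
      · rfl
    refine ⟨x, hx, Set.univ, isOpen_univ, ?_⟩
    ext y
    simp only [Set.univ_inter, Set.mem_singleton_iff]
    exact ⟨fun h => (hall y h).trans (hall x hx).symm, fun h => h ▸ hx⟩

end space

end Pool.Agent.Q209.WD
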